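import Pool.Agent.Lib.MP_af3a4a_an.P1.CHK.DATA.N6.Full
import Pool.Agent.Lib.MP_af3a4a_an.P1.CHK.DATA.N7.Full
import Pool.Agent.Lib.MP_af3a4a_an.P1.CHK.DATA.N8.Full
import Pool.Agent.Lib.MP_af3a4a_an.P1.CHK.DATA.N9.Full
import Pool.Agent.Lib.MP_af3a4a_an.P1.CHK.DATA.N10.Full
import Pool.Agent.Lib.MP_af3a4a_an.P1.CHK.DATA.N11.Full
import Pool.Agent.Lib.MP_af3a4a_an.P1.CHK.DATA.N12.Full
import Pool.Agent.Lib.MP_af3a4a_an.P1.CHK.DATA.N13.Full
import Pool.Agent.Lib.MP_af3a4a_an.P1.CHK.DATA.N14.Full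
import Pool.Agent.Lib.MP_af3a4a_an.P1.CHK.DATA.N15.Full
import Pool.Agent.Lib.MP_af3a4a_an.P1.CHK.DATA.N16.Full
import Pool.Agent.Lib.MP_af3a4a_an.P1.CHK.DATA.N17.Full
import Pool.Agent.Lib.MP_af3a4a_an.P1.CHK.DATA.N18.Full
import Pool.Agent.Lib.MP_af3a4a_an.P1.CHK.DATA.N19.Full
import Pool.Agent.Lib.MP_af3a4a_an.P1.CHK.DATA.N20.Full
import Pool.Agent.Lib.MP_af3a4a_an.P1.CHK.DATA.N21.Full
import Pool.Agent.Lib.MP_af3a4a_an.P1.CHK.DATA.N22.Full
import Pool.Agent.Lib.MP_af3a4a_an.P1.CHK.DATA.N23.Full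
import Pool.Agent.Lib.MP_af3a4a_an.P1.CHK.DATA.N24.Full
import Pool.Agent.Lib.MP_af3a4a_an.P1.CHK.DATA.N25.Full
import Pool.Agent.Lib.MP_af3a4a_an.P1.CHK.DATA.N26x27.Full
import Pool.Agent.Lib.MP_af3a4a_an.P1.CHK.DATA.N28x29.Full
import Pool.Agent.Lib.MP_af3a4a_an.P1.CHK.DATA.N30x31.Full
import Pool.Agent.Lib.MP_af3a4a_an.P1.CHK.DATA.N32x33.Full
import Pool.Agent.Lib.MP_af3a4a_an.P1.CHK.DATA.N34x35.Full
import Pool.Agent.Lib.MP_af3a4a_an.P1.CHK.DATA.N36x37.Full
import Pool.Agent.Lib.MP_af3a4a_an.P1.CHK.DATA.N38x39.Full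
import Pool.Agent.Lib.MP_af3a4a_an.P1.Final

/-!
# `Low N` for `6 <= N <= 39` (council 2, helper32)
-/

set_option autoImplicit false

namespace Pool.Agent.Lib.MP_af3a4a_an.P1.CHK.DATA

open Pool.Agent.Lib.MP_af3a4a_an.P1.Final

theorem low_6_39 {N : ℕ} (h0 : 6 ≤ N) (h1 : N ≤ 39) : Low N := by
  rcases Nat.lt_or_ge 6 N with h | h
  swap
  · exact low_of N6.allBox (by norm_num) (by omega) h
  rcases Nat.lt_or_ge 7 N with h | h
  swap
  · exact low_of N7.allBox (by norm_num) (by omega) h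
  rcases Nat.lt_or_ge 8 N with h | h
  swap
  · exact low_of N8.allBox (by norm_num) (by omega) h
  rcases Nat.lt_or_ge 9 N with h | h
  swap
  · exact low_of N9.allBox (by norm_num) (by omega) h
  rcases Nat.lt_or_ge 10 N with h | h
  swap
  · exact low_of N10.allBox (by norm_num) (by omega) h
  rcases Nat.lt_or_ge 11 N with h | h
  swap
  · exact low_of N11.allBox (by norm_num) (by omega) h
  rcases Nat.lt_or_ge 12 N with h | h
  swap
  · exact low_of N12.allBox (by norm_num) (by omega) h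
  rcases Nat.lt_or_ge 13 N with h | h
  swap
  · exact low_of N13.allBox (by norm_num) (by omega) h
  rcases Nat.lt_or_ge 14 N with h | h
  swap
  · exact low_of N14.allBox (by norm_num) (by omega) h
  rcases Nat.lt_or_ge 15 N with h | h
  swap
  · exact low_of N15.allBox (by norm_num) (by omega) h
  rcases Nat.lt_or_ge 16 N with h | h
  swap
  · exact low_of N16.allBox (by norm_num) (by omega) h
  rcases Nat.lt_or_ge 17 N with h | h
  swap
  · exact low_of N17.allBox (by norm_num) (by omega) h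
  rcases Nat.lt_or_ge 18 N with h | h
  swap
  · exact low_of N18.allBox (by norm_num) (by omega) h
  rcases Nat.lt_or_ge 19 N with h | h
  swap
  · exact low_of N19.allBox (by norm_num) (by omega) h
  rcases Nat.lt_or_ge 20 N with h | h
  swap
  · exact low_of N20.allBox (by norm_num) (by omega) h
  rcases Nat.lt_or_ge 21 N with h | h
  swap
  · exact low_of N21.allBox (by norm_num) (by omega) h
  rcases Nat.lt_or_ge 22 N with h | h
  swap
  · exact low_of N22.allBox (by norm_num) (by omega) h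
  rcases Nat.lt_or_ge 23 N with h | h
  swap
  · exact low_of N23.allBox (by norm_num) (by omega) h
  rcases Nat.lt_or_ge 24 N with h | h
  swap
  · exact low_of N24.allBox (by norm_num) (by omega) h
  rcases Nat.lt_or_ge 25 N with h | h
  swap
  · exact low_of N25.allBox (by norm_num) (by omega) h
  rcases Nat.lt_or_ge 27 N with h | h
  swap
  · exact low_of N26x27.allBox (by norm_num) (by omega) h
  rcases Nat.lt_or_ge 29 N with h | h
  swap
  · exact low_of N28x29.allBox (by norm_num) (by omega) h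
  rcases Nat.lt_or_ge 31 N with h | h
  swap
  · exact low_of N30x31.allBox (by norm_num) (by omega) h
  rcases Nat.lt_or_ge 33 N with h | h
  swap
  · exact low_of N32x33.allBox (by norm_num) (by omega) h
  rcases Nat.lt_or_ge 35 N with h | h
  swap
  · exact low_of N34x35.allBox (by norm_num) (by omega) h
  rcases Nat.lt_or_ge 37 N with h | h
  swap
  · exact low_of N36x37.allBox (by norm_num) (by omega) h
  exact low_of N38x39.allBox (by norm_num) (by omega) h1

end Pool.Agent.Lib.MP_af3a4a_an.P1.CHK.DATA
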