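import Pool.Agent.Lib.MP_af3a4a_an.P1.CHK.DATA.N40x41.Full
import Pool.Agent.Lib.MP_af3a4a_an.P1.CHK.DATA.N42x43.Full
import Pool.Agent.Lib.MP_af3a4a_an.P1.CHK.DATA.N44x45.Full
import Pool.Agent.Lib.MP_af3a4a_an.P1.CHK.DATA.N46x47.Full
import Pool.Agent.Lib.MP_af3a4a_an.P1.CHK.DATA.N48x49.Full
import Pool.Agent.Lib.MP_af3a4a_an.P1.CHK.DATA.N50x51.Full
import Pool.Agent.Lib.MP_af3a4a_an.P1.CHK.DATA.N52x53.Full
import Pool.Agent.Lib.MP_af3a4a_an.P1.CHK.DATA.N54x55.Full
import Pool.Agent.Lib.MP_af3a4a_an.P1.CHK.DATA.N56x57.Full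
import Pool.Agent.Lib.MP_af3a4a_an.P1.CHK.DATA.N58x59.Full
import Pool.Agent.Lib.MP_af3a4a_an.P1.CHK.DATA.Low
import Pool.Agent.Lib.MP_af3a4a_an.P1.Final

/-!
# `Low N` for `40 <= N <= 59` (council 2, helper32)
-/

set_option autoImplicit false

namespace Pool.Agent.Lib.MP_af3a4a_an.P1.CHK.DATA

open Pool.Agent.Lib.MP_af3a4a_an.P1.Final

theorem low_40_59 {N : ℕ} (h0 : 40 ≤ N) (h1 : N ≤ 59) : Low N := by
  rcases Nat.lt_or_ge 41 N with h | h
  swap
  · exact low_of N40x41.allBox (by norm_num) (by omega) h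
  rcases Nat.lt_or_ge 43 N with h | h
  swap
  · exact low_of N42x43.allBox (by norm_num) (by omega) h
  rcases Nat.lt_or_ge 45 N with h | h
  swap
  · exact low_of N44x45.allBox (by norm_num) (by omega) h
  rcases Nat.lt_or_ge 47 N with h | h
  swap
  · exact low_of N46x47.allBox (by norm_num) (by omega) h
  rcases Nat.lt_or_ge 49 N with h | h
  swap
  · exact low_of N48x49.allBox (by norm_num) (by omega) h
  rcases Nat.lt_or_ge 51 N with h | h
  swap
  · exact low_of N50x51.allBox (by norm_num) (by omega) h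
  rcases Nat.lt_or_ge 53 N with h | h
  swap
  · exact low_of N52x53.allBox (by norm_num) (by omega) h
  rcases Nat.lt_or_ge 55 N with h | h
  swap
  · exact low_of N54x55.allBox (by norm_num) (by omega) h
  rcases Nat.lt_or_ge 57 N with h | h
  swap
  · exact low_of N56x57.allBox (by norm_num) (by omega) h
  exact low_of N58x59.allBox (by norm_num) (by omega) h1

theorem low_6_59 {N : ℕ} (h0 : 6 ≤ N) (h1 : N ≤ 59) : Low N := by
  rcases Nat.lt_or_ge 39 N with h | h
  · exact low_40_59 (by omega) h1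
  · exact low_6_39 h0 h

end Pool.Agent.Lib.MP_af3a4a_an.P1.CHK.DATA
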