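import Pool.Agent.Lib.MP_af3a4a_an.P1.CHK.DATA.N60x61.Full
import Pool.Agent.Lib.MP_af3a4a_an.P1.CHK.DATA.N62x63.Full
import Pool.Agent.Lib.MP_af3a4a_an.P1.Final

/-!
# `Low N` for `60 <= N <= 63` (council 2, helper88)
-/

set_option autoImplicit false

namespace Pool.Agent.Lib.MP_af3a4a_an.P1.CHK.DATA

open Pool.Agent.Lib.MP_af3a4a_an.P1.Final

theorem low_60_63 {N : ℕ} (h0 : 60 ≤ N) (h1 : N ≤ 63) : Low N := by
  rcases Nat.lt_or_ge 61 N with h | h
  swap
  · exact low_of N60x61.allBox (by norm_num) (by omega) h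
  exact low_of N62x63.allBox (by norm_num) (by omega) h1

end Pool.Agent.Lib.MP_af3a4a_an.P1.CHK.DATA
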